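import Pool.Agent.H343.AN.StE

set_option autoImplicit false
set_option linter.unusedSectionVars false

/-! # MP_aa4716_al, E2 : elementary properties of the cutting level -/

namespace Pool.Agent.H390.AN.E2

open Pool.Agent.TH68 Pool.Agent.Helper97.Hyp Pool.Agent.H343.AN

lemma phi_nonneg (ρ lam : ℝ) : 0 ≤ phi ρ lam := le_max_left _ _

lemma phi_le_one (ρ lam : ℝ) : phi ρ lam ≤ 1 := max_le zero_le_one (min_le_left _ _)

theorem e2 (B : ToolB) : S_e2 := by
  intro Γ _ W 𝒜 _ Y R W' hQ hρ b x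
  have hδ := Y.hδ
  have hθ := Y.hθ
  have hθ1 : 1 ≤ Y.θ := hδ.trans hθ
  obtain ⟨hl1, hl2, hl3⟩ := lft_spec R hQ x
  have hC : 0 ≤ R.ρ / 2 + 6 * Y.θ := by nlinarith
  have hpsi : ∀ A, 0 ≤ psi R W' b A x ∧ psi R W' b A x ≤ R.ρ / 2 + 6 * Y.θ := by
    intro A
    unfold psi
    by_cases hA : ent R A ≤ b
    · rw [if_pos hA]
      have h1 := phi_nonneg R.ρ (pd (Y.S A) (pt W 1) (lft R W' x))
      have h2 := phi_le_one R.ρ (pd (Y.S A) (pt W 1) (lft R W' x))
      have h3 : pd (Y.S A) (pt W 1) (lft R W' x) ≤ R.ρ / 2 + 6 * Y.θ + 0 :=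
        B.redpd Y R hρ A le_rfl (Redu.of_red hl3 le_rfl)
      have h4 : 0 ≤ max 0 (ent R A + pd (Y.S A) (pt W 1) (lft R W' x) - b) := le_max_left _ _
      have h5 : max 0 (ent R A + pd (Y.S A) (pt W 1) (lft R W' x) - b) ≤
          R.ρ / 2 + 6 * Y.θ := max_le hC (by linarith)
      refine ⟨mul_nonneg h1 h4, ?_⟩
      calc _ ≤ 1 * max 0 (ent R A + pd (Y.S A) (pt W 1) (lft R W' x) - b) :=
            mul_le_mul_of_nonneg_right h2 h4
        _ ≤ _ := by rw [one_mul]; exact h5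
    · rw [if_neg hA]
      exact ⟨le_rfl, hC⟩
  have hbdd : BddAbove (Set.range fun A => psi R W' b A x) := by
    refine ⟨R.ρ / 2 + 6 * Y.θ, ?_⟩
    rintro _ ⟨A, rfl⟩
    exact (hpsi A).2
  have hlow : b ≤ bet R W' b x := by
    have : 0 ≤ ⨆ A, psi R W' b A x := Real.iSup_nonneg fun A => (hpsi A).1
    unfold bet; linarith
  have hup : bet R W' b x ≤ b + R.ρ / 2 + 6 * Y.θ := by
    have : (⨆ A, psi R W' b A x) ≤ R.ρ / 2 + 6 * Y.θ := Real.iSup_le (fun A => (hpsi A).2) hC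
    unfold bet; linarith
  refine ⟨hpsi, hbdd, hlow, hup, ?_, ?_, ?_⟩
  · intro A
    have := le_ciSup hbdd A
    unfold bet; linarith
  · intro K hK h
    have : (⨆ A, psi R W' b A x) ≤ K - b :=
      Real.iSup_le (fun A => by have := h A; linarith) (by linarith)
    unfold bet; linarith
  · intro hb hx
    have hex : ∃ w : Pt W, exc (pt W 1) (lft R W' x) w = 0 ∧
        dist (pt W 1) w = (⌊bet R W' b x⌋₊ : ℝ) := by
      have h1 : ((⌊bet R W' b x⌋₊ : ℕ) : ℝ) ≤ bet R W' b x := Nat.floor_le (hb.trans hlow)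
      have h2 : ((⌊bet R W' b x⌋₊ : ℕ) : ℝ) ≤ dist (pt W 1) (lft R W' x) := by
        rw [hl2]; nlinarith
      obtain ⟨z, hz1, hz2⟩ := exists_between (pt W 1) (lft R W' x) _ h2
      exact ⟨z, by unfold exc; linarith, hz1⟩
    have hz : exc (pt W 1) (lft R W' x) (zed R W' b x) = 0 ∧
        dist (pt W 1) (zed R W' b x) = (⌊bet R W' b x⌋₊ : ℝ) := by
      unfold zed
      rw [dif_pos hex]
      exact hex.choose_spec
    exact ⟨hz.1, hz.2, hl3.left hz.1⟩

end Pool.Agent.H390.AN.E2
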