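import Pool.Agent.H343.AN.StF

set_option autoImplicit false
set_option linter.unusedSectionVars false

/-! # MP_aa4716_al, F7 : from colourings to the families of the frozen statement -/

namespace Pool.Agent.H390.AN.F7

open Pool.Agent.TH68 Pool.Agent.Helper97.Hyp Pool.Agent.H343.AN

section

variable {G : Type} [Group G] (V : WNorm G) (S : Finset G)

lemma closure_top (h2 : ∀ g, V.ℓ g = 1 → g ∈ S ∨ g⁻¹ ∈ S) :
    Subgroup.closure (S : Set G) = ⊤ := by
  rw [eq_top_iff]
  rintro g -
  have key : ∀ n : ℕ, ∀ g : G, V.ℓ g = n → g ∈ Subgroup.closure (S : Set G) := by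
    intro n
    induction n with
    | zero =>
      intro g hg
      rw [V.eq_one g hg]
      exact Subgroup.one_mem _
    | succ n ih =>
      intro g hg
      obtain ⟨a, b, hab, ha, hb⟩ := V.geod g 1 (by omega)
      rw [← hab]
      apply Subgroup.mul_mem
      · rcases h2 a ha with h | h
        · exact Subgroup.subset_closure (by simpa using h)
        · have h3 : a⁻¹ ∈ Subgroup.closure (S : Set G) := Subgroup.subset_closure (by simpa using h)
          have h4 := Subgroup.inv_mem _ h3
          rwa [inv_inv] at h4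
      · exact ih b (by omega)
  exact key _ g rfl

/-- the graph of the frozen statement -/
def Gr : SimpleGraph G := SimpleGraph.fromRel (fun x y : G => x⁻¹ * y ∈ (S : Set G))

lemma adj_iff (x y : G) : (Gr S).Adj x y ↔ x ≠ y ∧ (x⁻¹ * y ∈ (S : Set G) ∨ y⁻¹ * x ∈ (S : Set G)) := by
  unfold Gr
  rw [SimpleGraph.fromRel_adj]

variable {V S}

lemma adj_le (h1 : ∀ s ∈ S, V.ℓ s ≤ 1) {x y : G} (h : (Gr S).Adj x y) : V.ℓ (x⁻¹ * y) ≤ 1 := by
  rw [adj_iff] at h
  rcases h.2 with h | h
  · exact h1 _ (by simpa using h)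
  · have h3 := h1 _ (show y⁻¹ * x ∈ S by simpa using h)
    rw [← V.inv'] at h3
    rwa [mul_inv_rev, inv_inv] at h3

lemma walk_le (h1 : ∀ s ∈ S, V.ℓ s ≤ 1) {x y : G} (p : (Gr S).Walk x y) :
    V.ℓ (x⁻¹ * y) ≤ p.length := by
  induction p with
  | nil => simp [V.one']
  | @cons u v w h p ih =>
    have h3 := adj_le h1 h
    have h4 := V.mul_le (u⁻¹ * v) (v⁻¹ * w)
    have h5 : u⁻¹ * v * (v⁻¹ * w) = u⁻¹ * w := by group
    rw [h5] at h4
    rw [SimpleGraph.Walk.length_cons]
    omega

lemma exists_walk (h2 : ∀ g, V.ℓ g = 1 → g ∈ S ∨ g⁻¹ ∈ S) :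
    ∀ (n : ℕ) (x y : G), V.ℓ (x⁻¹ * y) = n → ∃ p : (Gr S).Walk x y, p.length = n := by
  intro n
  induction n with
  | zero =>
    intro x y h
    have h3 := V.eq_one _ h
    rw [inv_mul_eq_one] at h3
    subst h3
    exact ⟨SimpleGraph.Walk.nil, rfl⟩
  | succ n ih =>
    intro x y h
    obtain ⟨a, b, hab, ha, hb⟩ := V.geod _ 1 (show 1 ≤ V.ℓ (x⁻¹ * y) by omega)
    have h3 : (x * a)⁻¹ * y = b := by
      have : y = x * (a * b) := by rw [hab]; group
      rw [this]; group
    obtain ⟨p, hp⟩ := ih (x * a) y (by rw [h3]; omega)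
    have hadj : (Gr S).Adj x (x * a) := by
      rw [adj_iff]
      refine ⟨?_, ?_⟩
      · intro hx
        have ha1 : a = 1 := by
          have := congrArg (fun t => x⁻¹ * t) hx
          simp only [inv_mul_cancel, inv_mul_cancel_left] at this
          exact this.symm
        rw [ha1, V.one'] at ha
        omega
      · rcases h2 a ha with h | h
        · left
          rw [inv_mul_cancel_left]; simpa using h
        · right
          have : (x * a)⁻¹ * x = a⁻¹ := by group
          rw [this]; simpa using h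
    exact ⟨SimpleGraph.Walk.cons hadj p, by rw [SimpleGraph.Walk.length_cons, hp]⟩

lemma dist_gr (h1 : ∀ s ∈ S, V.ℓ s ≤ 1) (h2 : ∀ g, V.ℓ g = 1 → g ∈ S ∨ g⁻¹ ∈ S) (x y : G) :
    (Gr S).dist x y = V.ℓ (x⁻¹ * y) := by
  obtain ⟨p, hp⟩ := exists_walk h2 _ x y rfl
  apply le_antisymm
  · rw [← hp]; exact SimpleGraph.dist_le p
  · obtain ⟨q, hq⟩ := (SimpleGraph.Walk.reachable p).exists_walk_length_eq_dist
    rw [← hq]
    exact walk_le h1 q

end

lemma stp_symm {X : Type} [PseudoMetricSpace X] {k : ℕ} {P : Set X} {c : X → Fin k} {s : ℝ}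
    {x y : X} (h : Stp P c s x y) : Stp P c s y x :=
  ⟨h.2.1, h.1, h.2.2.1.symm, by rw [dist_comm]; exact h.2.2.2⟩

lemma chain_symm {X : Type} [PseudoMetricSpace X] {k : ℕ} {P : Set X} {c : X → Fin k} {s : ℝ}
    {x y : X} (h : Relation.ReflTransGen (Stp P c s) x y) :
    Relation.ReflTransGen (Stp P c s) y x := by
  induction h with
  | refl => exact Relation.ReflTransGen.refl
  | tail _ h2 ih => exact Relation.ReflTransGen.head (stp_symm h2) ih

lemma chain_col {X : Type} [PseudoMetricSpace X] {k : ℕ} {P : Set X} {c : X → Fin k} {s : ℝ}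
    {x y : X} (h : Relation.ReflTransGen (Stp P c s) x y) : c x = c y := by
  induction h with
  | refl => rfl
  | tail _ h2 ih => exact ih.trans h2.2.2.1

theorem f7 : S_f7 := by
  intro G _ V S h1 h2
  refine ⟨closure_top V S h2, ?_⟩
  rintro ⟨τ, C', hcol⟩
  have hτ1 : 1 ≤ max τ 1 := le_max_right _ _
  have hC1 : 1 ≤ max C' 1 := le_max_right _ _
  have hCC : C' ≤ max C' 1 := le_max_left _ _
  refine ⟨3, max C' 1 * max τ 1, by positivity, ?_⟩
  intro r hr
  have hd : ∀ x y : G, (((SimpleGraph.fromRel (fun x y : G => x⁻¹ * y ∈ (S : Set G))).dist x y : ℕ) : ℝ)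
      = dist (pt V x) (pt V y) := by
    intro x y
    have := dist_gr h1 h2 x y
    unfold Gr at this
    rw [this]; rfl
  rcases lt_or_ge r 1 with hr1 | hr1
  · refine ⟨fun _ => {A | ∃ x : G, A = {x}}, ?_, ?_, ?_⟩
    · intro x
      exact ⟨0, {x}, ⟨x, rfl⟩, rfl⟩
    · rintro i A ⟨a, rfl⟩ x hx y hy
      rw [Set.mem_singleton_iff] at hx hy
      subst hx; subst hy
      rw [SimpleGraph.dist_self]
      push_cast
      positivity
    · rintro i A ⟨a, rfl⟩ B ⟨b, rfl⟩ hAB x hx y hy
      rw [Set.mem_singleton_iff] at hx hy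
      subst hx; subst hy
      have hxy : x ≠ y := by
        rintro rfl; exact hAB rfl
      have h3 : (SimpleGraph.fromRel (fun x y : G => x⁻¹ * y ∈ (S : Set G))).dist x y ≠ 0 := by
        have := dist_gr h1 h2 x y
        unfold Gr at this
        rw [this]
        intro h0
        have := V.eq_one _ h0
        rw [inv_mul_eq_one] at this
        exact hxy this
      have h4 : (1 : ℝ) ≤ (((SimpleGraph.fromRel (fun x y : G => x⁻¹ * y ∈ (S : Set G))).dist x y : ℕ) : ℝ) := by
        exact_mod_cast Nat.one_le_iff_ne_zero.mpr h3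
      linarith
  · obtain ⟨c, hc⟩ := hcol (max r (max τ 1)) ((le_max_left _ _).trans (le_max_right _ _))
    set s := max r (max τ 1) with hs
    have hsr : s ≤ max τ 1 * r := by
      apply max_le
      · nlinarith
      · nlinarith
    have hrs : r ≤ s := le_max_left _ _
    have hs0 : 0 < s := hr.trans_le hrs
    refine ⟨fun i => {A | ∃ x : Pt V, c x = i ∧
      A = {y : G | Relation.ReflTransGen (Stp Set.univ c s) x (pt V y)}}, ?_, ?_, ?_⟩
    · intro x
      exact ⟨c (pt V x), _, ⟨pt V x, rfl, rfl⟩, Relation.ReflTransGen.refl⟩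
    · rintro i A ⟨a, ha, rfl⟩ x hx y hy
      have hx' : Relation.ReflTransGen (Stp Set.univ c s) a (pt V x) := hx
      have hy' : Relation.ReflTransGen (Stp Set.univ c s) a (pt V y) := hy
      have h3 := hc _ _ ((chain_symm hx').trans hy')
      rw [hd]
      refine h3.trans ?_
      calc C' * s ≤ max C' 1 * s := mul_le_mul_of_nonneg_right hCC hs0.le
        _ ≤ max C' 1 * (max τ 1 * r) := mul_le_mul_of_nonneg_left hsr (by linarith)
        _ = max C' 1 * max τ 1 * r := by ring
    · rintro i A ⟨a, ha, rfl⟩ B ⟨b, hb, rfl⟩ hAB x hx y hy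
      have hx' : Relation.ReflTransGen (Stp Set.univ c s) a (pt V x) := hx
      have hy' : Relation.ReflTransGen (Stp Set.univ c s) b (pt V y) := hy
      rw [hd]
      by_contra hcon
      push Not at hcon
      apply hAB
      have hstep : Stp Set.univ c s (pt V x) (pt V y) := by
        refine ⟨Set.mem_univ _, Set.mem_univ _, ?_, hcon.trans hrs⟩
        rw [← chain_col hx', ← chain_col hy', ha, hb]
      have hab : Relation.ReflTransGen (Stp Set.univ c s) a b :=
        (hx'.tail hstep).trans (chain_symm hy')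
      ext z
      constructor
      · intro hz
        exact (chain_symm hab).trans hz
      · intro hz
        exact hab.trans hz

end Pool.Agent.H390.AN.F7
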